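import Pool.Agent.Helper5.TL.Defs

/-!
# Refining the finite index subgroup, and a separating element
-/

namespace Pool.Agent.Helper17.TL

open Pool.Agent.Helper5.TL
open scoped Pointwise

universe u

section aux

variable {k : Type u} [Field k] {H : Type*} [Group H]

lemma eqLocus_normal (f g : H →* k) : (f.eqLocus g).Normal := by
  constructor
  intro n hn x
  have hn' : f n = g n := hn
  change f (x * n * x⁻¹) = g (x * n * x⁻¹)
  have h1 : f x * f x⁻¹ = 1 := by rw [← map_mul, mul_inv_cancel, map_one]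
  have h2 : g x * g x⁻¹ = 1 := by rw [← map_mul, mul_inv_cancel, map_one]
  calc f (x * n * x⁻¹) = f n * (f x * f x⁻¹) := by rw [map_mul, map_mul]; ring
    _ = g n * (g x * g x⁻¹) := by rw [h1, h2, hn']
    _ = g (x * n * x⁻¹) := by rw [map_mul, map_mul]; ring

lemma eqLocus_finiteIndex (f g : H →* k) (M : ℕ) (hM : 0 < M)
    (h : ∀ x, f x ^ M = g x ^ M) : (f.eqLocus g).FiniteIndex := by
  have : NeZero M := ⟨hM.ne'⟩
  let φ : H →* kˣ := f.toHomUnits / g.toHomUnits
  have hφ : ∀ x, (φ x) ^ M = 1 := by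
    intro x
    have : f.toHomUnits x ^ M = g.toHomUnits x ^ M := by
      apply Units.ext
      simpa using h x
    change (f.toHomUnits x / g.toHomUnits x) ^ M = 1
    rw [div_pow, this, div_self']
  have hfin : Finite φ.range := by
    have hle : (φ.range : Set kˣ) ⊆ (rootsOfUnity M k : Set kˣ) := by
      rintro _ ⟨x, rfl⟩
      exact hφ x
    have hr : Finite (rootsOfUnity M k) := inferInstance
    exact Set.Finite.subset (@Set.toFinite _ (rootsOfUnity M k : Set kˣ) hr) hle
  have hker : φ.ker = f.eqLocus g := by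
    ext x
    change f.toHomUnits x / g.toHomUnits x = 1 ↔ f x = g x
    rw [div_eq_one]
    constructor
    · intro hx
      have := congrArg Units.val hx
      simpa using this
    · intro hx
      apply Units.ext
      simpa using hx
  rw [← hker]
  infer_instance

end aux

theorem exists_flagC2 {k : Type u} {G V : Type*} [Field k] [Group G] [AddCommGroup V] [Module k V]
    (ρ : G →* Module.End k V) (H : Subgroup G) [H.FiniteIndex] (h : FlagC ρ H) :
    ∃ (N : Subgroup G) (m : ℕ) (F : ℕ → Submodule k V) (c : ℕ → N →* k),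
      N.Normal ∧ N.FiniteIndex ∧ FlagC2 ρ N m F c := by
  classical
  obtain ⟨m, F, c, hF0, hFm, hFmono, hFc⟩ := h
  let P : Fin m × Fin m → Prop := fun p =>
    ∃ M, 0 < M ∧ ∀ x : H, c p.1 x ^ M = c p.2 x ^ M
  let K : Subgroup H := ⨅ p : Fin m × Fin m, if P p then (c p.1).eqLocus (c p.2) else ⊤
  have hK : K.FiniteIndex := by
    apply Subgroup.finiteIndex_iInf
    intro p
    split_ifs with hp
    · obtain ⟨M, hM, hM'⟩ := hp
      exact eqLocus_finiteIndex _ _ M hM hM'
    · infer_instance
  let N1 : Subgroup G := K.map H.subtype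
  have hN1 : N1.FiniteIndex := by
    constructor
    rw [Subgroup.index_map_subtype]
    exact mul_ne_zero hK.index_ne_zero (Subgroup.FiniteIndex.index_ne_zero)
  have hN1H : N1 ≤ H := Subgroup.map_subtype_le K
  have hNH : N1.normalCore ≤ H := N1.normalCore_le.trans hN1H
  refine ⟨N1.normalCore, m, F, fun i => (c i).comp (Subgroup.inclusion hNH), inferInstance,
    inferInstance, hF0, hFm, hFmono, ?_, ?_⟩
  · intro i x v hv
    exact hFc i (Subgroup.inclusion hNH x) v hv
  · intro i hi j hj hne M hM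
    by_contra hcon
    push Not at hcon
    apply hne
    have hP : P (⟨i, hi⟩, ⟨j, hj⟩) := by
      refine ⟨N1.normalCore.index * M, Nat.mul_pos (Nat.pos_of_ne_zero
        Subgroup.FiniteIndex.index_ne_zero) hM, ?_⟩
      intro x
      have hx : (x : G) ^ N1.normalCore.index ∈ N1.normalCore :=
        Subgroup.pow_index_mem N1.normalCore (x : G)
      have h1 := hcon ⟨_, hx⟩
      have e : Subgroup.inclusion hNH ⟨(x : G) ^ N1.normalCore.index, hx⟩
          = x ^ N1.normalCore.index := by
        apply Subtype.ext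
        simp
      simp only [MonoidHom.comp_apply, e, map_pow] at h1
      rw [pow_mul, pow_mul]
      exact h1
    ext y
    simp only [MonoidHom.comp_apply]
    have hy : (y : G) ∈ N1 := N1.normalCore_le y.2
    obtain ⟨z, hz, hzy⟩ := hy
    have hz' : z ∈ (if P (⟨i, hi⟩, ⟨j, hj⟩) then (c i).eqLocus (c j) else ⊤) :=
      (Subgroup.mem_iInf.1 hz) (⟨i, hi⟩, ⟨j, hj⟩)
    rw [if_pos hP] at hz'
    have e : Subgroup.inclusion hNH y = z := by
      apply Subtype.ext
      rw [Subgroup.coe_inclusion, ← hzy]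
      rfl
    rw [e]
    exact hz'

theorem exists_separating {k : Type u} {G V : Type*} [Field k] [Group G] [AddCommGroup V]
    [Module k V] (ρ : G →* Module.End k V) (N : Subgroup G) {m : ℕ} {F : ℕ → Submodule k V}
    {c : ℕ → N →* k} (h : FlagC2 ρ N m F c) :
    ∃ n₀ : N, ∀ i < m, ∀ j < m, c i ≠ c j → c i n₀ ≠ c j n₀ := by
  classical
  by_contra hcon
  push Not at hcon
  let s : Finset (Fin m × Fin m) := Finset.univ.filter fun p => c p.1 ≠ c p.2
  have hcov : ⋃ p ∈ s, (1 : N) • (((c p.1).eqLocus (c p.2) : Subgroup N) : Set N)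
      = Set.univ := by
    apply Set.eq_univ_of_forall
    intro x
    obtain ⟨i, hi, j, hj, hne, heq⟩ := hcon x
    rw [Set.mem_iUnion₂]
    refine ⟨(⟨i, hi⟩, ⟨j, hj⟩), ?_, ?_⟩
    · simp only [s, Finset.mem_filter, Finset.mem_univ, true_and]
      exact hne
    · rw [one_smul]
      exact heq
  obtain ⟨p, hp, hfin⟩ := Subgroup.exists_finiteIndex_of_leftCoset_cover hcov
  simp only [s, Finset.mem_filter, Finset.mem_univ, true_and] at hp
  have hn := eqLocus_normal (c p.1) (c p.2)
  obtain ⟨n, hn'⟩ := h.2.2.2.2 p.1 p.1.2 p.2 p.2.2 hp ((c p.1).eqLocus (c p.2)).index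
    (Nat.pos_of_ne_zero hfin.index_ne_zero)
  apply hn'
  have : n ^ ((c p.1).eqLocus (c p.2)).index ∈ (c p.1).eqLocus (c p.2) :=
    Subgroup.pow_index_mem _ n
  have h2 : c p.1 (n ^ ((c p.1).eqLocus (c p.2)).index)
    = c p.2 (n ^ ((c p.1).eqLocus (c p.2)).index) := this
  rwa [map_pow, map_pow] at h2

end Pool.Agent.Helper17.TL
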